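import Pool.Agent.Helper50.LE.CH2
import Pool.Agent.Helper2.LE.ST2
import Pool.Agent.Helper32.RD.VAL

/-!
# Project LE (MP_fc6b1e_nt), packet L_CH1: choice of `b` with three primes
-/

namespace Pool.Agent.Helper79.LE

open NumberField Module IsDedekindDomain
open Pool.Agent.Helper51.RP Pool.Agent.Helper42.RD Pool.Agent.Helper38.RSP Pool.Agent.Helper11.LE
open Pool.Agent.Helper38.RS (pz)
open Pool.Agent.Helper99.RS (pz_mono pz_union pz_finite finite_bad)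
open Pool.Agent.Helper50.LE
open Pool.Agent.Helper2.LE (locG mem_locG pow_mem_locG mem_of_zpow dvd_of_locPow)

section loc

variable {K : Type} [Field K] [NumberField K]

/-- The norm of a prime not above `p` is `1` modulo `p` if there is a primitive `p`-th root of unity. -/
theorem norm_one {p : ℕ} [Fact p.Prime] {ε : K} (hε : IsPrimitiveRoot ε p)
    (Q : HeightOneSpectrum (𝓞 K)) (hQ : Q.valuation K (p : K) = 1)
    (hQN : (Ideal.absNorm Q.asIdeal).Prime) : p ∣ Ideal.absNorm Q.asIdeal - 1 := by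
  have hp : p.Prime := Fact.out
  have hcop : (Ideal.absNorm Q.asIdeal).Coprime p := by
    rw [Nat.coprime_primes hQN hp]
    intro h5
    have h6 : ((p : ℕ) : 𝓞 K) ∈ Q.asIdeal := by
      rw [← h5]
      exact Ideal.absNorm_mem _
    have h7 : Q.valuation K (algebraMap (𝓞 K) K (p : 𝓞 K)) < 1 := by
      rw [HeightOneSpectrum.valuation_lt_one_iff_mem]
      exact h6
    rw [map_natCast] at h7
    exact absurd hQ h7.ne
  have hε' : IsPrimitiveRoot hε.toInteger p := hε.toInteger_isPrimitiveRoot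
  have hε'' := hε'.idealQuotient_mk (I := Q.asIdeal) hQN.one_lt.ne' hcop
  have hmax : Q.asIdeal.IsMaximal := Q.isMaximal
  let _ := Ideal.Quotient.field Q.asIdeal
  have hu : IsPrimitiveRoot (Units.mk0 _ (hε''.ne_zero hp.ne_zero)) p :=
    IsPrimitiveRoot.coe_units_iff.1 hε''
  have hcard : Ideal.absNorm Q.asIdeal = Nat.card (𝓞 K ⧸ Q.asIdeal) := by
    rw [Ideal.absNorm_apply]
    rfl
  rw [hcard, ← Nat.card_units, hu.eq_orderOf]
  exact orderOf_dvd_natCard _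

/-- The local line. -/
theorem local_line {p : ℕ} [Fact p.Prime] (Q : HeightOneSpectrum (𝓞 K))
    (hN : p ∣ Ideal.absNorm Q.asIdeal - 1) (x₀ x₁ : Kˣ) (h0 : Q.valuation K (x₀ : K) = 1)
    (h1 : Q.valuation K (x₁ : K) = 1) (hx : ¬ LocPow p Q (x₀ : K)) :
    ∃ a : ℕ, LocPow p Q ((x₀ ^ a * x₁ : Kˣ) : K) := by
  have hp : p.Prime := Fact.out
  obtain ⟨π, hπ⟩ := Q.valuation_exists_uniformizer K
  have hπ0 : π ≠ 0 := by
    rintro rfl
    rw [map_zero] at hπ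
    exact absurd hπ.symm (WithZero.exp_ne_zero)
  have hord : ordv Q π = 1 := by
    unfold ordv
    rw [hπ, WithZero.log_exp]
    norm_num
  obtain ⟨θ, hθ1, hθ2, -⟩ := Pool.Agent.Helper32.RDV.exists_tame p Q π hπ0 hord hN
  have hG : ∀ x : Kˣ, Q.valuation K (x : K) = 1 → (θ x = 0 ↔ LocPow p Q (x : K)) := by
    intro x hxv
    rw [hθ2, Pool.Agent.Helper32.RDV.mem_GG_iff]
    constructor
    · rintro ⟨i, hi⟩
      have he : (x : K) * π ^ i = ((x * (Units.mk0 π hπ0) ^ i : Kˣ) : K) := by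
        push_cast
        rfl
      have hd := dvd_of_locPow Q (x * (Units.mk0 π hπ0) ^ i) (by rw [← he]; exact hi) hp.ne_zero
      rw [← he, Pool.Agent.Helper32.RDV.ordv_mul Q x.ne_zero (pow_ne_zero i hπ0),
        Pool.Agent.Helper32.RDV.ordv_eq_zero Q hxv, zero_add,
        Pool.Agent.Helper32.RDV.ordv_pow, hord, mul_one] at hd
      obtain ⟨t, ht⟩ := Int.natCast_dvd_natCast.mp hd
      rw [ht, mul_comm p t, pow_mul] at hi
      exact (locPow_mul_pth Q (pow_ne_zero t hπ0)).1 hi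
    · intro h
      exact ⟨0, by rwa [pow_zero, mul_one]⟩
  have hθ0 : θ x₀ ≠ 0 := fun h => hx ((hG x₀ h0).1 h)
  have hθ00 : θ 1 = 0 := by
    have h := hθ1 1 1
    rw [mul_one] at h
    exact left_eq_add.1 h
  have hθn : ∀ (x : Kˣ) (n : ℕ), θ (x ^ n) = n * θ x := by
    intro x n
    induction n with
    | zero => rw [pow_zero, hθ00, Nat.cast_zero, zero_mul]
    | succ n ih =>
      rw [pow_succ, hθ1, ih]
      push_cast
      ring
  refine ⟨(-(θ x₁ * (θ x₀)⁻¹)).val, ?_⟩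
  rw [← hG]
  · rw [hθ1, hθn, ZMod.natCast_zmod_val, neg_mul, mul_assoc, inv_mul_cancel₀ hθ0, mul_one,
      neg_add_cancel]
  · rw [Units.val_mul, Units.val_pow_eq_pow_val, map_mul, map_pow, h0, h1, one_pow, mul_one]

theorem notDvd_one {p : ℕ} (hp : p.Prime) : ¬ p ∣ 1 := fun h => hp.one_lt.ne' (Nat.dvd_one.1 h)

end loc

theorem l_ch1 (h1 : L_CYC) (h2 : L_RCF) (h3 : L_MOD) (h4 : L_ANN) (h5 : L_SUP) (h6 : L_PIK) :
    Pool.Agent.Helper11.LE.L_CH1 := by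
  intro p _ hp2 K _ _ ε hε x₀ x₁ hxi 𝔪 ψ hψ hind 𝔫 h𝔫 Z hZ
  classical
  have hp : p.Prime := Fact.out
  have hp3 : 3 ≤ p := by
    have := hp.two_le
    omega
  have hC : Cyc p K K ε := by
    refine ⟨hε, inferInstance, fun σ _ => ?_⟩
    refine AlgEquiv.ext fun x => ?_
    exact σ.commutes x
  obtain ⟨-, -, -, htc⟩ := h1 p K K ε hC
  have htc' : IsTotallyComplex K := htc hp2
  have h𝔫₁ : 𝔫 * 𝔪 ≠ ⊥ := mul_ne_zero h𝔫 hψ.ne
  obtain ⟨n, η, hη, hR⟩ := h2 p K (𝔫 * 𝔪) h𝔫₁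
  obtain ⟨hψ₁, hind₁⟩ := h3 p K 𝔪 (𝔫 * 𝔪) 2 ψ hψ hind h𝔫₁ Ideal.mul_le_right
  have hΦ := fam_append hη hψ₁
  set Φ : Fin (n + 2) → Ideal (𝓞 K) → ZMod p := Fin.append η ψ with hΦdef
  -- not p-th powers
  have hxp : ∀ x : Kˣ, ¬ Pw p x → ¬ ∃ y : K, y ^ p = (x : K) := by
    rintro x hx ⟨y, hy⟩
    have hy0 : y ≠ 0 := by
      rintro rfl
      rw [zero_pow hp.ne_zero] at hy
      exact x.ne_zero hy.symm
    refine hx ⟨Units.mk0 y hy0, Units.ext ?_⟩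
    rw [Units.val_pow_eq_pow_val, Units.val_mk0, hy]
  have hx₀ : ¬ Pw p x₀ := by
    intro h
    have h9 := (hxi 1 0 (by rwa [pow_one, pow_zero, mul_one])).1
    exact notDvd_one hp h9
  have hDens : ∀ x : Kˣ, ¬ Pw p x → Dens {v : HeightOneSpectrum (𝓞 K) | v.valuation K (p : K) = 1 ∧
      LocPow p v (x : K)} (1 / (p : ℝ)) := fun x hx =>
    sp_kum_all p K ε (x : K) hε x.ne_zero (hxp x hx)
  have hA₂ := h4 p K (𝔫 * 𝔪) 2 ψ hψ₁ hind₁ ⊤
  have hcard : (Nat.card (⊤ : AddSubgroup (Fin 2 → ZMod p)) : ℝ) = (p : ℝ) ^ 2 := by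
    have h9 : Nat.card (⊤ : AddSubgroup (Fin 2 → ZMod p)) = p ^ 2 := by
      rw [Nat.card_congr AddSubgroup.topEquiv.toEquiv, Nat.card_eq_fintype_card,
        Fintype.card_fun, ZMod.card, Fintype.card_fin]
    rw [h9]
    push_cast
    rfl
  rw [hcard] at hA₂
  set B : Set (HeightOneSpectrum (𝓞 K)) :=
    ⋃ g ∈ (Finset.univ.filter fun g : Fin (n + 2) → ZMod p => Thin (Pr p (𝔫 * 𝔪) (n + 2) Φ g)),
      Pr p (𝔫 * 𝔪) (n + 2) Φ g with hBdef
  have hB : Thin B := thin_biUnion _ _ fun g hg => (Finset.mem_filter.1 hg).2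
  set Z₂ : Set (HeightOneSpectrum (𝓞 K)) :=
    ((({v | ¬ v.asIdeal ⊔ 𝔫 * 𝔪 = ⊤} ∪ {v | v.valuation K (p : K) ≠ 1}) ∪ Z) ∪
      {v | v.valuation K (x₀ : K) ≠ 1}) ∪ {v | v.valuation K (x₁ : K) ≠ 1} with hZ₂def
  have hZ₂ : Z₂.Finite := by
    refine ((((finite_div h𝔫₁).union ?_).union hZ).union ?_).union ?_
    · exact finite_bad (by exact_mod_cast hp.ne_zero)
    · exact finite_bad x₀.ne_zero
    · exact finite_bad x₁.ne_zero
  have hgood : ∀ Q : HeightOneSpectrum (𝓞 K), Q ∉ Z₂ → Q.asIdeal ⊔ 𝔫 * 𝔪 = ⊤ ∧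
      Q.valuation K (p : K) = 1 ∧ Q ∉ Z ∧ Q.valuation K (x₀ : K) = 1 ∧
      Q.valuation K (x₁ : K) = 1 := by
    intro Q hQ
    rw [hZ₂def, Set.mem_union, Set.mem_union, Set.mem_union, Set.mem_union, not_or, not_or, not_or,
      not_or] at hQ
    exact ⟨not_not.1 hQ.1.1.1.1, not_not.1 hQ.1.1.1.2, hQ.1.1.2, not_not.1 hQ.1.2,
      not_not.1 hQ.2⟩
  have hpR : (3 : ℝ) ≤ (p : ℝ) := by exact_mod_cast hp3
  have hp1 : 1 / (p : ℝ) ≤ 1 / 3 := one_div_le_one_div_of_le (by norm_num) hpR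
  have hsum1 : 1 / (p : ℝ) + 1 / (p : ℝ) ^ 2 < 1 := by
    have h11 : 1 / (p : ℝ) ^ 2 ≤ 1 / 3 ^ 2 :=
      one_div_le_one_div_of_le (by norm_num) (pow_le_pow_left₀ (by norm_num) hpR 2)
    linarith
  -- Q₁
  obtain ⟨Q₁, hQA₁, hQA₂, hQB, hQZ, hQN⟩ := (h6 K).1 _ _ B Z₂ _ _ (hDens x₀ hx₀) hA₂ hsum1 hB hZ₂
  obtain ⟨hQ1, hQ2, hQ3, hQ4, hQ5⟩ := hgood Q₁ hQZ
  have hQpow : ¬ LocPow p Q₁ (x₀ : K) := fun h9 => hQA₁ ⟨hQ2, h9⟩
  obtain ⟨κ₁, hκ₁⟩ : ∃ κ : Fin n → ZMod p, ∀ i, η i Q₁.asIdeal = κ i := ⟨_, fun _ => rfl⟩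
  obtain ⟨w₁, hw₁⟩ : ∃ w : Fin 2 → ZMod p, ∀ i, ψ i Q₁.asIdeal = w i := ⟨_, fun _ => rfl⟩
  have hw₁0 : w₁ ≠ 0 := by
    intro h0
    apply hQA₂
    refine ⟨hQ1, fun c _ => Finset.sum_eq_zero fun i _ => ?_⟩
    rw [hw₁, h0, Pi.zero_apply, mul_zero]
  have hnt : ¬ Thin (Pr p (𝔫 * 𝔪) (n + 2) Φ (Fin.append κ₁ w₁)) := by
    intro h9
    apply hQB
    rw [hBdef]
    refine Set.mem_iUnion₂.2 ⟨Fin.append κ₁ w₁, Finset.mem_filter.2 ⟨Finset.mem_univ _, h9⟩, ?_⟩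
    exact ⟨hQ1, Or.inl ((append_iff κ₁ w₁ Q₁.asIdeal).2 ⟨hκ₁, hw₁⟩)⟩
  have hg₁ : Fin.append κ₁ w₁ ∈ vals hΦ :=
    ⟨Q₁.asIdeal, Q₁.ne_bot, hQ1, (append_iff κ₁ w₁ Q₁.asIdeal).2 ⟨hκ₁, hw₁⟩⟩
  -- the local line
  obtain ⟨a, ha⟩ := local_line Q₁ (norm_one hε Q₁ hQ2 hQN) x₀ x₁ hQ4 hQ5 hQpow
  have hy : ¬ Pw p (x₀ ^ a * x₁) := by
    intro h
    have h9 := (hxi a 1 (by rwa [pow_one])).2
    exact notDvd_one hp h9
  -- Q₂
  set C₀ : AddSubgroup (Fin 2 → ZMod p) :=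
    { carrier := {c | ∑ i, c i * w₁ i = 0}
      zero_mem' := by simp
      add_mem' := by
        intro c d hc hd
        have hc' : ∑ i, c i * w₁ i = 0 := hc
        have hd' : ∑ i, d i * w₁ i = 0 := hd
        show ∑ i, (c + d) i * w₁ i = 0
        simp only [Pi.add_apply, add_mul, Finset.sum_add_distrib, hc', hd', add_zero]
      neg_mem' := by
        intro c hc
        have hc' : ∑ i, c i * w₁ i = 0 := hc
        show ∑ i, (-c) i * w₁ i = 0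
        simp only [Pi.neg_apply, neg_mul, Finset.sum_neg_distrib, hc', neg_zero] } with hC₀def
  have hmemC₀ : ∀ c : Fin 2 → ZMod p, c ∈ C₀ ↔ ∑ i, c i * w₁ i = 0 := fun c => Iff.rfl
  have hC₀ : (2 : ℝ) ≤ (Nat.card C₀ : ℝ) := by
    have h9 : 1 < Nat.card C₀ := by
      rw [AddSubgroup.one_lt_card_iff_ne_bot]
      intro hbot
      have hv : (![w₁ 1, -w₁ 0] : Fin 2 → ZMod p) ∈ C₀ := by
        rw [hmemC₀, Fin.sum_univ_two]
        simp only [Matrix.cons_val_zero, Matrix.cons_val_one]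
        ring
      rw [hbot, AddSubgroup.mem_bot] at hv
      apply hw₁0
      funext i
      have h10 := congrFun hv 0
      have h11 := congrFun hv 1
      simp only [Matrix.cons_val_zero, Matrix.cons_val_one, Pi.zero_apply, neg_eq_zero] at h10 h11
      fin_cases i
      · exact h11
      · exact h10
    exact_mod_cast h9
  have hA₂' := h4 p K (𝔫 * 𝔪) 2 ψ hψ₁ hind₁ C₀
  have hsum2 : 1 / (p : ℝ) + 1 / (Nat.card C₀ : ℝ) < 1 := by
    have h11 : 1 / (Nat.card C₀ : ℝ) ≤ 1 / 2 := one_div_le_one_div_of_le (by norm_num) hC₀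
    linarith
  obtain ⟨Q₂, hPA₁, hPA₂, hPB, hPZ, hPN⟩ := (h6 K).1 _ _ B (Z₂ ∪ {Q₁}) _ _ (hDens _ hy) hA₂'
    hsum2 hB (hZ₂.union (Set.finite_singleton _))
  rw [Set.mem_union, not_or] at hPZ
  obtain ⟨hP1, hP2, hP3, hP4, hP5⟩ := hgood Q₂ hPZ.1
  have h21 : Q₂ ≠ Q₁ := hPZ.2
  have hPpow : ¬ LocPow p Q₂ ((x₀ ^ a * x₁ : Kˣ) : K) := fun h9 => hPA₁ ⟨hP2, h9⟩
  obtain ⟨κ₂, hκ₂⟩ : ∃ κ : Fin n → ZMod p, ∀ i, η i Q₂.asIdeal = κ i := ⟨_, fun _ => rfl⟩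
  obtain ⟨w₂, hw₂⟩ : ∃ w : Fin 2 → ZMod p, ∀ i, ψ i Q₂.asIdeal = w i := ⟨_, fun _ => rfl⟩
  have hw₂c : ∀ c : ZMod p, w₂ ≠ c • w₁ := by
    intro c hc
    apply hPA₂
    refine ⟨hP1, fun d hd => ?_⟩
    rw [hmemC₀] at hd
    have h9 : ∑ i, d i * ψ i Q₂.asIdeal = c * ∑ i, d i * w₁ i := by
      rw [Finset.mul_sum]
      refine Finset.sum_congr rfl fun i _ => ?_
      rw [hw₂, hc, Pi.smul_apply, smul_eq_mul]
      ring
    rw [h9, hd, mul_zero]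
  have hg₂ : Fin.append κ₂ w₂ ∈ vals hΦ :=
    ⟨Q₂.asIdeal, Q₂.ne_bot, hP1, (append_iff κ₂ w₂ Q₂.asIdeal).2 ⟨hκ₂, hw₂⟩⟩
  -- Q₃
  have hmul : ∀ g ∈ vals hΦ, Thin (Pr p (𝔫 * 𝔪) (n + 2) Φ g) → ∀ k : ℕ,
      Thin (Pr p (𝔫 * 𝔪) (n + 2) Φ ((k + 1) • g)) := by
    intro g hg hT k
    induction k with
    | zero => rwa [zero_add, one_smul]
    | succ k ih =>
      rw [add_smul (k + 1) 1 g, one_smul]
      exact h5 p K (𝔫 * 𝔪) (n + 2) Φ hΦ _ _ ((vals hΦ).nsmul_mem hg _) hg ih hT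
  obtain ⟨e, he, hnt₃⟩ : ∃ e : ℤ, e * e = 1 ∧
      ¬ Thin (Pr p (𝔫 * 𝔪) (n + 2) Φ (Fin.append κ₁ w₁ + e • Fin.append κ₂ w₂)) := by
    by_contra hcon
    push Not at hcon
    have hT1 := hcon 1 (by norm_num)
    have hT2 := hcon (-1) (by norm_num)
    have hm1 : Fin.append κ₁ w₁ + (1 : ℤ) • Fin.append κ₂ w₂ ∈ vals hΦ :=
      (vals hΦ).add_mem hg₁ ((vals hΦ).zsmul_mem hg₂ _)
    have hm2 : Fin.append κ₁ w₁ + (-1 : ℤ) • Fin.append κ₂ w₂ ∈ vals hΦ :=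
      (vals hΦ).add_mem hg₁ ((vals hΦ).zsmul_mem hg₂ _)
    have hT3 := h5 p K (𝔫 * 𝔪) (n + 2) Φ hΦ _ _ hm1 hm2 hT1 hT2
    have h9 := hmul _ ((vals hΦ).add_mem hm1 hm2) hT3 ((p + 1) / 2 - 1)
    apply hnt
    have h10 : ((p + 1) / 2 - 1 + 1) • (Fin.append κ₁ w₁ + (1 : ℤ) • Fin.append κ₂ w₂ +
        (Fin.append κ₁ w₁ + (-1 : ℤ) • Fin.append κ₂ w₂)) = Fin.append κ₁ w₁ := by
      obtain ⟨m, hm⟩ : ∃ m, p = 2 * m + 1 := by
        rcases hp.eq_two_or_odd' with h | h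
        · exact absurd h hp2
        · exact h
      have h11 : (p + 1) / 2 - 1 + 1 = m + 1 := by omega
      have h12 : ((m : ZMod p) + 1) * 2 = 1 := by
        have h13 : ((2 * m + 1 : ℕ) : ZMod p) = 0 := by rw [← hm]; exact CharP.cast_eq_zero _ _
        push_cast at h13
        linear_combination h13
      rw [h11]
      funext i
      simp only [Pi.smul_apply, Pi.add_apply, one_smul, neg_smul, Pi.neg_apply, nsmul_eq_mul]
      push_cast
      linear_combination (Fin.append κ₁ w₁ i) * h12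
    rw [h10] at h9
    exact h9
  obtain ⟨Q₃, hQ₃m, hRZ, hRN⟩ := (h6 K).2 _ (Z₂ ∪ {Q₁, Q₂}) hnt₃
    (hZ₂.union (Set.toFinite _))
  rw [Set.mem_union, not_or, Set.mem_insert_iff, Set.mem_singleton_iff, not_or] at hRZ
  obtain ⟨hR1, hR2, hR3, hR4, hR5⟩ := hgood Q₃ hRZ.1
  have h31 : Q₃ ≠ Q₁ := hRZ.2.1
  have h32 : Q₃ ≠ Q₂ := hRZ.2.2
  obtain ⟨s, hs, hsη, hsψ⟩ : ∃ s : ℤ, s * s = 1 ∧
      (∀ i, η i Q₃.asIdeal = -s * (κ₁ i + e * κ₂ i)) ∧
      ∀ i, ψ i Q₃.asIdeal = -s * (w₁ i + e * w₂ i) := by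
    have hcast : ∀ i, (Fin.append κ₁ w₁ + e • Fin.append κ₂ w₂) i =
        Fin.append (fun i => κ₁ i + e * κ₂ i) (fun i => w₁ i + e * w₂ i) i := by
      intro i
      refine Fin.addCases (fun j => ?_) (fun j => ?_) i
      · rw [Pi.add_apply, Pi.smul_apply, Fin.append_left, Fin.append_left, Fin.append_left,
          zsmul_eq_mul]
      · rw [Pi.add_apply, Pi.smul_apply, Fin.append_right, Fin.append_right, Fin.append_right,
          zsmul_eq_mul]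
    rcases hQ₃m.2 with h9 | h9
    · obtain ⟨h10, h11⟩ := (append_iff _ _ Q₃.asIdeal).1 fun i => (h9 i).trans (hcast i)
      refine ⟨-1, by norm_num, fun i => ?_, fun i => ?_⟩
      · rw [h10]
        push_cast
        ring
      · rw [h11]
        push_cast
        ring
    · have h12 : ∀ i, Φ i Q₃.asIdeal = Fin.append (-(fun i => κ₁ i + e * κ₂ i))
          (-(fun i => w₁ i + e * w₂ i)) i := by
        intro i
        rw [h9, hcast, ← append_neg]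
        rfl
      obtain ⟨h10, h11⟩ := (append_iff _ _ Q₃.asIdeal).1 h12
      refine ⟨1, by norm_num, fun i => ?_, fun i => ?_⟩
      · rw [h10, Pi.neg_apply]
        push_cast
        ring
      · rw [h11, Pi.neg_apply]
        push_cast
        ring
  have hez : ((e : ℤ) : ZMod p) * ((e : ℤ) : ZMod p) = 1 := by
    rw [← Int.cast_mul, he, Int.cast_one]
  have hsz : ((s : ℤ) : ZMod p) * ((s : ℤ) : ZMod p) = 1 := by
    rw [← Int.cast_mul, hs, Int.cast_one]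
  -- the divisor
  set c : HeightOneSpectrum (𝓞 K) →₀ ℤ :=
    Finsupp.single Q₁ 1 + Finsupp.single Q₂ e + Finsupp.single Q₃ s with hcdef
  have hc1 : c Q₁ = 1 := by
    rw [hcdef, Finsupp.add_apply, Finsupp.add_apply, Finsupp.single_eq_same,
      Finsupp.single_eq_of_ne h21.symm, Finsupp.single_eq_of_ne h31.symm]
    ring
  have hc2 : c Q₂ = e := by
    rw [hcdef, Finsupp.add_apply, Finsupp.add_apply, Finsupp.single_eq_same,
      Finsupp.single_eq_of_ne h21, Finsupp.single_eq_of_ne h32.symm]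
    ring
  have hc3 : c Q₃ = s := by
    rw [hcdef, Finsupp.add_apply, Finsupp.add_apply, Finsupp.single_eq_same,
      Finsupp.single_eq_of_ne h31, Finsupp.single_eq_of_ne h32]
    ring
  have hc0 : ∀ Q, Q ≠ Q₁ → Q ≠ Q₂ → Q ≠ Q₃ → c Q = 0 := by
    intro Q q1 q2 q3
    rw [hcdef, Finsupp.add_apply, Finsupp.add_apply, Finsupp.single_eq_of_ne q1,
      Finsupp.single_eq_of_ne q2, Finsupp.single_eq_of_ne q3]
    ring
  have hsumc : ∀ f : HeightOneSpectrum (𝓞 K) → ZMod p,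
      ∑ Q ∈ c.support, (c Q : ZMod p) * f Q = f Q₁ + e * f Q₂ + s * f Q₃ := by
    intro f
    have h9 : ∑ Q ∈ c.support, (c Q : ZMod p) * f Q =
        c.sum fun Q m => (m : ZMod p) * f Q := rfl
    rw [h9, hcdef, Finsupp.sum_add_index', Finsupp.sum_add_index', Finsupp.sum_single_index,
      Finsupp.sum_single_index, Finsupp.sum_single_index]
    · push_cast
      ring
    all_goals simp [add_mul]
  obtain ⟨b, hb0, hb1, hbv⟩ := hR c (by
    intro Q hQ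
    by_cases q1 : Q = Q₁
    · rw [q1]; exact hQ1
    by_cases q2 : Q = Q₂
    · rw [q2]; exact hP1
    by_cases q3 : Q = Q₃
    · rw [q3]; exact hR1
    exact absurd (hc0 Q q1 q2 q3) hQ) (by
    intro i
    rw [hsumc fun Q => η i Q.asIdeal, hκ₁, hκ₂, hsη]
    linear_combination (-(κ₁ i) - e * κ₂ i) * hsz)
  have hbv1 : ((ordv Q₁ (b : K) : ℤ) : ZMod p) = 1 := by
    have h9 := hbv Q₁ hQ1
    rw [hc1] at h9
    have h10 := (ZMod.intCast_zmod_eq_zero_iff_dvd _ _).2 h9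
    push_cast at h10
    linear_combination h10
  have hbv2 : ((ordv Q₂ (b : K) : ℤ) : ZMod p) = e := by
    have h9 := hbv Q₂ hP1
    rw [hc2] at h9
    have h10 := (ZMod.intCast_zmod_eq_zero_iff_dvd _ _).2 h9
    push_cast at h10
    linear_combination h10
  have hbv3 : ((ordv Q₃ (b : K) : ℤ) : ZMod p) = s := by
    have h9 := hbv Q₃ hR1
    rw [hc3] at h9
    have h10 := (ZMod.intCast_zmod_eq_zero_iff_dvd _ _).2 h9
    push_cast at h10
    linear_combination h10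
  have hez0 : ((e : ℤ) : ZMod p) ≠ 0 := by
    intro h
    rw [h, mul_zero] at hez
    exact zero_ne_one hez
  have hsz0 : ((s : ℤ) : ZMod p) ≠ 0 := by
    intro h
    rw [h, mul_zero] at hsz
    exact zero_ne_one hsz
  have hbv0 : ∀ Q : HeightOneSpectrum (𝓞 K), Q ≠ Q₁ → Q ≠ Q₂ → Q ≠ Q₃ →
      (p : ℤ) ∣ ordv Q (b : K) := by
    intro Q q1 q2 q3
    by_cases hQ : Q.asIdeal ⊔ 𝔫 * 𝔪 = ⊤
    · have h9 := hbv Q hQ
      rwa [hc0 Q q1 q2 q3, sub_zero] at h9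
    · have h9 : 𝔫 * 𝔪 ≤ Q.asIdeal := by
        by_contra h10
        exact hQ (Q.isMaximal.out.2 _ (left_lt_sup.2 h10))
      have h10 : b ∉ Q.asIdeal := by
        intro h11
        apply Q.isMaximal.ne_top
        rw [Ideal.eq_top_iff_one]
        have h12 : (1 : 𝓞 K) = b - (b - 1) := by ring
        rw [h12]
        exact Q.asIdeal.sub_mem h11 (h9 hb1)
      have h11 : Q.valuation K (b : K) = 1 := Q.valuation_eq_one_iff_notMem.2 h10
      rw [Pool.Agent.Helper32.RDV.ordv_eq_zero Q h11]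
      exact dvd_zero _
  have hmemZ : ∀ w, w ∈ ({Q₁, Q₂, Q₃} : Finset (HeightOneSpectrum (𝓞 K))) ↔
      w = Q₁ ∨ w = Q₂ ∨ w = Q₃ := by
    intro w
    rw [Finset.mem_insert, Finset.mem_insert, Finset.mem_singleton]
  have hle𝔪 : ∀ Q : HeightOneSpectrum (𝓞 K), Q.asIdeal ⊔ 𝔫 * 𝔪 = ⊤ → Q.asIdeal ⊔ 𝔪 = ⊤ := by
    intro Q hQ
    rw [eq_top_iff, ← hQ]
    exact sup_le_sup_left Ideal.mul_le_right _
  refine ⟨b, {Q₁, Q₂, Q₃}, hb0, Ideal.mul_le_left hb1, ?_, ?_, ?_, ?_⟩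
  · intro w hw
    rcases (hmemZ w).1 hw with rfl | rfl | rfl
    · exact ⟨hQ3, hle𝔪 _ hQ1⟩
    · exact ⟨hP3, hle𝔪 _ hP1⟩
    · exact ⟨hR3, hle𝔪 _ hR1⟩
  · intro w
    constructor
    · intro hw hdvd
      have h9 := (ZMod.intCast_zmod_eq_zero_iff_dvd _ _).2 hdvd
      rcases (hmemZ w).1 hw with rfl | rfl | rfl
      · rw [hbv1] at h9
        exact one_ne_zero h9
      · rw [hbv2] at h9
        exact hez0 h9
      · rw [hbv3] at h9
        exact hsz0 h9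
    · intro hw
      by_contra h9
      rw [hmemZ, not_or, not_or] at h9
      exact hw (hbv0 w h9.1 h9.2.1 h9.2.2)
  · intro o ho
    have hsum3 : ∀ f : HeightOneSpectrum (𝓞 K) → ZMod p,
        ∑ w ∈ ({Q₁, Q₂, Q₃} : Finset (HeightOneSpectrum (𝓞 K))), f w = f Q₁ + f Q₂ + f Q₃ := by
      intro f
      rw [Finset.sum_insert, Finset.sum_insert, Finset.sum_singleton, add_assoc]
      · rw [Finset.mem_singleton]
        exact h32.symm
      · rw [Finset.mem_insert, Finset.mem_singleton, not_or]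
        exact ⟨h21.symm, h31.symm⟩
    have h9 : ∀ i, (o Q₁ - s * o Q₃) * w₁ i + (o Q₂ - s * e * o Q₃) * w₂ i = 0 := by
      intro i
      have h10 := ho i
      rw [hsum3, hw₁, hw₂, hsψ] at h10
      linear_combination h10
    obtain ⟨h10, h11⟩ := indep_pair w₁ w₂ hw₁0 hw₂c _ _ h9
    refine ⟨s * o Q₃, fun w hw => ?_⟩
    rcases (hmemZ w).1 hw with rfl | rfl | rfl
    · rw [hbv1]
      linear_combination h10
    · rw [hbv2]
      linear_combination h11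
    · rw [hbv3]
      linear_combination (-(o w)) * hsz
  · intro i j hij
    have hi1 := hij Q₁ ((hmemZ _).2 (Or.inl rfl))
    have hi2 := hij Q₂ ((hmemZ _).2 (Or.inr (Or.inl rfl)))
    rw [← mem_locG] at hi1 hi2 ha
    -- at Q₁
    have hz : ∀ k l : ℤ, (x₀ ^ k * x₁ ^ l : Kˣ) = x₀ ^ (k - a * l) * (x₀ ^ a * x₁) ^ l := by
      intro k l
      rw [mul_zpow, ← mul_assoc, ← zpow_natCast x₀ a, ← zpow_mul, ← zpow_add]
      congr 2
      ring
    have hdv : (p : ℤ) ∣ (i : ℤ) - a * j := by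
      by_contra hnd
      apply hQpow
      rw [← mem_locG]
      refine mem_of_zpow hp (locG p Q₁) (pow_mem_locG Q₁) hnd ?_
      have h9 : x₀ ^ ((i : ℤ) - a * j) = (x₀ ^ i * x₁ ^ j) * ((x₀ ^ a * x₁) ^ (j : ℤ))⁻¹ := by
        have h10 := hz i j
        rw [zpow_natCast x₀ i, zpow_natCast x₁ j] at h10
        rw [h10, mul_assoc, mul_inv_cancel, mul_one]
      rw [h9]
      exact (locG p Q₁).mul_mem hi1 ((locG p Q₁).inv_mem ((locG p Q₁).zpow_mem ha _))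
    have hjv : (p : ℤ) ∣ (j : ℤ) := by
      by_contra hnd
      apply hPpow
      rw [← mem_locG]
      refine mem_of_zpow hp (locG p Q₂) (pow_mem_locG Q₂) hnd ?_
      have h9 : (x₀ ^ a * x₁) ^ (j : ℤ) = (x₀ ^ ((i : ℤ) - a * j))⁻¹ * (x₀ ^ i * x₁ ^ j) := by
        have h10 := hz i j
        rw [zpow_natCast x₀ i, zpow_natCast x₁ j] at h10
        rw [h10, ← mul_assoc, inv_mul_cancel, one_mul]
      rw [h9]
      refine (locG p Q₂).mul_mem ((locG p Q₂).inv_mem ?_) hi2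
      obtain ⟨t, ht⟩ := hdv
      rw [ht, mul_comm, zpow_mul, zpow_natCast]
      exact pow_mem_locG Q₂ _
    have hiv : (p : ℤ) ∣ (i : ℤ) := by
      have h9 := dvd_add hdv (hjv.mul_left (a : ℤ))
      rwa [sub_add_cancel] at h9
    exact ⟨Int.natCast_dvd_natCast.1 hiv, Int.natCast_dvd_natCast.1 hjv⟩

end Pool.Agent.Helper79.LE
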